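import Mathlib
import Pool.Agent.N290.RK.Stm

/-!
# Project RK (helper290), part SS: small solutions near the boundary (helper692)
-/

set_option autoImplicit false

open Complex MeasureTheory Set Filter Topology

namespace Pool.Agent.N692.RK

open Pool.Agent.N290.RJ Pool.Agent.N290.RK

variable {d : ℕ}

theorem num_e {s : ℝ} (hs0 : 0 ≤ s) (hs1 : s ≤ 1) : (1 + s / 16) ^ 8 ≤ 1 + s := by
  have h : ∀ j : ℕ, s ^ (j + 1) ≤ s := by
    intro j
    have h1 : s ^ j ≤ 1 := pow_le_one₀ hs0 hs1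
    calc s ^ (j + 1) = s ^ j * s := pow_succ s j
      _ ≤ 1 * s := mul_le_mul_of_nonneg_right h1 hs0
      _ = s := one_mul s
  have h2 := h 1
  have h3 := h 2
  have h4 := h 3
  have h5 := h 4
  have h6 := h 5
  have h7 := h 6
  have h8 := h 7
  norm_num at h2 h3 h4 h5 h6 h7 h8
  have e : (1 + s / 16) ^ 8 = 1 + s / 2 + 28 / 256 * s ^ 2 + 56 / 4096 * s ^ 3 +
      70 / 65536 * s ^ 4 + 56 / 1048576 * s ^ 5 + 28 / 16777216 * s ^ 6 +
      8 / 268435456 * s ^ 7 + 1 / 4294967296 * s ^ 8 := by ring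
  rw [e]
  linarith

theorem num_f {s u u' : ℝ} (hu : 0 < u) (hu' : 0 < u')
    (hs0 : 0 ≤ s) (hs1 : s ≤ 1) (hus : u' ^ 8 = u ^ 8 * (1 + s)) :
    u * (1 + s / 16) ≤ u' ∧ u' ≤ 2 * u := by
  constructor
  · refine le_of_pow_le_pow_left₀ (n := 8) (by norm_num) hu'.le ?_
    rw [hus, mul_pow]
    exact mul_le_mul_of_nonneg_left (num_e hs0 hs1) (by positivity)
  · refine le_of_pow_le_pow_left₀ (n := 8) (by norm_num) (by positivity) ?_
    rw [hus]
    have h3 : 0 ≤ u ^ 8 := by positivity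
    have h4 : (2 * u) ^ 8 = u ^ 8 * 256 := by ring
    rw [h4]
    exact mul_le_mul_of_nonneg_left (by linarith) h3

/-- the numerical step -/
theorem num_r {C₁ K m a L u u' s d E E' D0 D1 p dP Ch : ℝ} (hC : 0 < C₁) (hK : 0 ≤ K)
    (hm : 0 < m) (ha : 0 ≤ a) (hL : 0 ≤ L) (hu : 0 < u) (hu' : 0 < u') (hu1 : u ≤ 1)
    (hs0 : 0 ≤ s) (hs1 : s ≤ 1) (hus : u' ^ 8 = u ^ 8 * (1 + s))
    (hd0 : 0 ≤ d) (hd1 : d ≤ s) (hd2 : d ≤ m * (K * a * (s / u)))
    (hD00 : 0 ≤ D0) (hD10 : 0 ≤ D1)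
    (hD0 : D0 ≤ m * (3 / 2 * K * a * u ^ 3 * L)) (hD1 : D1 ≤ m * (3 / 2 * K * a * u' ^ 3 * L))
    (hp0 : 0 ≤ p) (hp : p ≤ C₁ / m * (a * u' ^ 2 * L))
    (hdP : dP ≤ C₁ / m * (a * (s / u)))
    (hE0 : 0 ≤ E) (hE : E ≤ Ch * (a ^ 2 * L) * u)
    (hCh : 22 * (14 * m * C₁ * K ^ 2 + 18 * C₁ * K) ≤ Ch)
    (hE' : E' ≤ (1 + d / 64) * E + d * (C₁ / m * (D0 + D1) + 4 * p) + dP * D0) :
    E' ≤ Ch * (a ^ 2 * L) * u' := by
  obtain ⟨h1, h2⟩ := num_f hu hu' hs0 hs1 hus
  have hCh0 : 0 ≤ Ch := le_trans (by positivity) hCh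
  have hW : 0 ≤ a ^ 2 * L := by positivity
  have hX : 0 ≤ s * u := by positivity
  have hu3 : u' ^ 3 ≤ 8 * u ^ 3 := by
    calc u' ^ 3 ≤ (2 * u) ^ 3 := pow_le_pow_left₀ hu'.le h2 3
      _ = 8 * u ^ 3 := by ring
  have hu2 : u' ^ 2 ≤ 4 * u ^ 2 := by
    calc u' ^ 2 ≤ (2 * u) ^ 2 := pow_le_pow_left₀ hu'.le h2 2
      _ = 4 * u ^ 2 := by ring
  have hD : C₁ / m * (D0 + D1) ≤ 27 / 2 * (C₁ * K * a * u ^ 3 * L) := by
    have e1 : D0 + D1 ≤ m * (3 / 2 * K * a * L * (9 * u ^ 3)) := by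
      have e2 : D1 ≤ m * (3 / 2 * K * a * L * (8 * u ^ 3)) := by
        refine hD1.trans ?_
        refine mul_le_mul_of_nonneg_left ?_ hm.le
        calc 3 / 2 * K * a * u' ^ 3 * L = 3 / 2 * K * a * L * u' ^ 3 := by ring
          _ ≤ 3 / 2 * K * a * L * (8 * u ^ 3) := mul_le_mul_of_nonneg_left hu3 (by positivity)
      calc D0 + D1 ≤ m * (3 / 2 * K * a * u ^ 3 * L) + m * (3 / 2 * K * a * L * (8 * u ^ 3)) :=
            add_le_add hD0 e2
        _ = _ := by ring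
    calc C₁ / m * (D0 + D1) ≤ C₁ / m * (m * (3 / 2 * K * a * L * (9 * u ^ 3))) :=
          mul_le_mul_of_nonneg_left e1 (by positivity)
      _ = _ := by field_simp; ring
  have hp4 : 4 * p ≤ 16 * (C₁ / m * (a * u ^ 2 * L)) := by
    have e1 : C₁ / m * (a * u' ^ 2 * L) ≤ C₁ / m * (a * (4 * u ^ 2) * L) := by
      refine mul_le_mul_of_nonneg_left ?_ (by positivity)
      refine mul_le_mul_of_nonneg_right ?_ hL
      exact mul_le_mul_of_nonneg_left hu2 ha
    have e2 : C₁ / m * (a * (4 * u ^ 2) * L) = 4 * (C₁ / m * (a * u ^ 2 * L)) := by ring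
    linarith
  have hsum0 : 0 ≤ C₁ / m * (D0 + D1) + 4 * p := by positivity
  have huu : u ^ 2 ≤ u := by nlinarith
  have hT2 : d * (C₁ / m * (D0 + D1) + 4 * p) ≤
      (27 / 2 * m * C₁ * K ^ 2 + 16 * C₁ * K) * (a ^ 2 * L * (s * u)) := by
    have e1 : C₁ / m * (D0 + D1) + 4 * p ≤
        27 / 2 * (C₁ * K * a * u ^ 3 * L) + 16 * (C₁ / m * (a * u ^ 2 * L)) := add_le_add hD hp4
    have e2 : d * (C₁ / m * (D0 + D1) + 4 * p) ≤ (m * (K * a * (s / u))) *
        (27 / 2 * (C₁ * K * a * u ^ 3 * L) + 16 * (C₁ / m * (a * u ^ 2 * L))) :=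
      mul_le_mul hd2 e1 hsum0 (by positivity)
    have e3 : (m * (K * a * (s / u))) *
        (27 / 2 * (C₁ * K * a * u ^ 3 * L) + 16 * (C₁ / m * (a * u ^ 2 * L))) =
        27 / 2 * m * C₁ * K ^ 2 * (a ^ 2 * L * s * u ^ 2) +
          16 * C₁ * K * (a ^ 2 * L * (s * u)) := by
      field_simp
    have e4 : a ^ 2 * L * s * u ^ 2 ≤ a ^ 2 * L * s * u :=
      mul_le_mul_of_nonneg_left huu (by positivity)
    have e5 : 27 / 2 * m * C₁ * K ^ 2 * (a ^ 2 * L * s * u ^ 2) ≤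
        27 / 2 * m * C₁ * K ^ 2 * (a ^ 2 * L * s * u) :=
      mul_le_mul_of_nonneg_left e4 (by positivity)
    have e6 : (27 / 2 * m * C₁ * K ^ 2 + 16 * C₁ * K) * (a ^ 2 * L * (s * u)) =
        27 / 2 * m * C₁ * K ^ 2 * (a ^ 2 * L * s * u) + 16 * C₁ * K * (a ^ 2 * L * (s * u)) := by
      ring
    rw [e6]
    rw [e3] at e2
    linarith
  have hT3 : dP * D0 ≤ 3 / 2 * C₁ * K * (a ^ 2 * L * (s * u)) := by
    have e1 : dP * D0 ≤ (C₁ / m * (a * (s / u))) * (m * (3 / 2 * K * a * u ^ 3 * L)) :=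
      mul_le_mul hdP hD0 hD00 (by positivity)
    have e2 : (C₁ / m * (a * (s / u))) * (m * (3 / 2 * K * a * u ^ 3 * L)) =
        3 / 2 * C₁ * K * (a ^ 2 * L * s * u ^ 2) := by
      field_simp
    have e4 : a ^ 2 * L * s * u ^ 2 ≤ a ^ 2 * L * s * u :=
      mul_le_mul_of_nonneg_left huu (by positivity)
    have e5 : 3 / 2 * C₁ * K * (a ^ 2 * L * s * u ^ 2) ≤ 3 / 2 * C₁ * K * (a ^ 2 * L * s * u) :=
      mul_le_mul_of_nonneg_left e4 (by positivity)
    rw [e2] at e1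
    have e6 : a ^ 2 * L * (s * u) = a ^ 2 * L * s * u := by ring
    rw [e6]
    linarith
  have hT1 : (1 + d / 64) * E ≤ (1 + s / 64) * (Ch * (a ^ 2 * L) * u) :=
    mul_le_mul (by linarith) hE hE0 (by positivity)
  have hY : 0 ≤ a ^ 2 * L * (s * u) := by positivity
  have hsumC : (27 / 2 * m * C₁ * K ^ 2 + 16 * C₁ * K) * (a ^ 2 * L * (s * u)) +
      3 / 2 * C₁ * K * (a ^ 2 * L * (s * u)) ≤ Ch / 22 * (a ^ 2 * L * (s * u)) := by
    rw [← add_mul]
    refine mul_le_mul_of_nonneg_right ?_ hY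
    have k1 : 0 ≤ m * C₁ * K ^ 2 := by positivity
    have k2 : 0 ≤ C₁ * K := by positivity
    linarith
  have hfin : Ch * (a ^ 2 * L) * (u * (1 + s / 16)) ≤ Ch * (a ^ 2 * L) * u' :=
    mul_le_mul_of_nonneg_left h1 (by positivity)
  have e7 : Ch * (a ^ 2 * L) * (u * (1 + s / 16)) =
      Ch * (a ^ 2 * L) * u + Ch / 16 * (a ^ 2 * L * (s * u)) := by ring
  have e8 : (1 + s / 64) * (Ch * (a ^ 2 * L) * u) =
      Ch * (a ^ 2 * L) * u + Ch / 64 * (a ^ 2 * L * (s * u)) := by ring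
  have hZ : 0 ≤ Ch * (a ^ 2 * L * (s * u)) := by positivity
  rw [e7] at hfin
  rw [e8] at hT1
  linarith

/-- the recursion -/
noncomputable def vr (C m : ℝ) (f : E d → ℂ) (P : ℕ → E d → ℂ) (k0 : ℕ) : ℕ → (E d → ℂ)
  | 0 => fun _ => 0
  | j + 1 => fun w => (vr C m f P k0 j w + ((m : ℂ)⁻¹ * P (k0 + j + 1) w) *
      starRingEnd ℂ ((m : ℂ) * f (rad (k0 + j + 1) • w) - (m : ℂ) * f (rad (k0 + j) • w))) /
      (1 + starRingEnd ℂ (((m : ℂ)⁻¹ * P (k0 + j + 1) w) *
        starRingEnd ℂ ((m : ℂ) * f (rad (k0 + j + 1) • w) - (m : ℂ) * f (rad (k0 + j) • w))) *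
          vr C m f P k0 j w / (256 * C) ^ 2)

theorem nm_continuous : Continuous (nm : E d → ℝ) := Real.continuous_sqrt.comp N_continuous

theorem Om_open (τ : ℝ) : IsOpen {z : E d | z ∈ B d ∧ 1 - nm z < τ} :=
  B_open.inter (isOpen_lt (continuous_const.sub nm_continuous) continuous_const)

/-- the weight along the rays -/
theorem om_ray {K : ℝ} {ω : ℝ → ℝ} (hω : Slow K ω) (hK : 0 ≤ K) {z : E d} (hz : z ∈ B d) {t : ℝ}
    (h0 : 0 ≤ t) (h1 : t ≤ 1) : ω (1 - N (t • z)) ≤ K * ω (1 - N z) * (uu z t)⁻¹ := by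
  have hn := nm_nonneg z
  have hx := x_pos hz
  have hr := r_pos hz h1
  have htn := tn_le (z := z) h1
  have hN : N z = nm z ^ 2 := (nm_sq z).symm
  have hNt : N (t • z) = (t * nm z) ^ 2 := by rw [N_smul, hN]; ring
  have htn0 : 0 ≤ t * nm z := mul_nonneg h0 hn
  have p1 : 0 < 1 - N z := sub_pos.2 hz
  have p2 : 1 - N z ≤ 1 - N (t • z) := by
    rw [hN, hNt]
    have := pow_le_pow_left₀ htn0 htn 2
    linarith
  have p3 : 1 - N (t • z) ≤ 1 := by
    rw [hNt]
    have := sq_nonneg (t * nm z)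
    linarith
  have h2 := hω.2.2 (1 - N (t • z)) (1 - N z) p1 p2 p3
  have h3 : (1 - N (t • z)) / (1 - N z) ≤ (1 - t * nm z) / (1 - nm z) := by
    rw [div_le_div_iff₀ p1 hx, hN, hNt]
    have e1 : (1 - (t * nm z) ^ 2) * (1 - nm z) =
        ((1 - t * nm z) * (1 - nm z)) * (1 + t * nm z) := by ring
    have e2 : (1 - t * nm z) * (1 - nm z ^ 2) =
        ((1 - t * nm z) * (1 - nm z)) * (1 + nm z) := by ring
    rw [e1, e2]
    exact mul_le_mul_of_nonneg_left (by linarith) (mul_nonneg hr.le hx.le)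
  have h4 : ((1 - N (t • z)) / (1 - N z)) ^ (1 / 8 : ℝ) ≤ (uu z t)⁻¹ := by
    rw [← uu_inv hz h1]
    exact Real.rpow_le_rpow (div_nonneg (p1.le.trans p2) p1.le) h3 (by norm_num)
  have h5 := (hω.2.1 (1 - N z)).1
  calc ω (1 - N (t • z)) ≤ K * ((1 - N (t • z)) / (1 - N z)) ^ (1 / 8 : ℝ) * ω (1 - N z) := h2
    _ ≤ K * (uu z t)⁻¹ * ω (1 - N z) := by
        refine mul_le_mul_of_nonneg_right ?_ h5
        exact mul_le_mul_of_nonneg_left h4 hK
    _ = _ := by ring

theorem m_fderiv {f : E d → ℂ} {z : E d} {r m : ℝ} (hf : DifferentiableAt ℂ f (r • z))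
    (ξ : E d) : fderiv ℂ (fun w => (m : ℂ) * f (r • w)) z ξ =
      (m : ℂ) * fderiv ℂ f (r • z) (r • ξ) := by
  have h1 := (dil_hasFDerivAt hf).const_mul (m : ℂ)
  rw [h1.fderiv]
  simp

theorem SS_of (d : ℕ) (h1 : S1 d) (h2 : S2 d) (h3 : S3 d) : SS d := by
  intro K C₁ η ω hK hC₁ hη hω hωpos hlim
  have hK0 : 0 ≤ K := by linarith
  obtain ⟨m, hm⟩ : ∃ m : ℝ, m = 256 * C₁ / η := ⟨_, rfl⟩
  have hm0 : 0 < m := by rw [hm]; positivity
  have hmC : (m : ℂ) ≠ 0 := by exact_mod_cast hm0.ne'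
  have hCm : C₁ / m = η / 256 := by
    rw [hm]; field_simp
  have hCm0 : 0 < C₁ / m := by positivity
  have h256 : 256 * (C₁ / m) = η := by rw [hCm]; ring
  -- the choice of `k0`
  obtain ⟨k0, hk0, hk0'⟩ : ∃ k0 : ℕ, m * ω (4 * (1 / 2) ^ k0) ≤ 1 ∧ 4 * (1 / 2 : ℝ) ^ k0 ≤ 1 := by
    have e1 : ∀ᶠ t in 𝓝[>] (0 : ℝ), ω t < 1 / m :=
      hlim.eventually (gt_mem_nhds (by positivity))
    have e2 : Tendsto (fun k : ℕ => 4 * (1 / 2 : ℝ) ^ k) atTop (𝓝[>] 0) := by
      rw [tendsto_nhdsWithin_iff]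
      constructor
      · have := (tendsto_pow_atTop_nhds_zero_of_lt_one (r := (1 / 2 : ℝ)) (by norm_num)
          (by norm_num)).const_mul 4
        rwa [mul_zero] at this
      · exact Eventually.of_forall fun k => by
          rw [mem_Ioi]; positivity
    have e3 := e2.eventually e1
    have e4 : ∀ᶠ k : ℕ in atTop, 4 * (1 / 2 : ℝ) ^ k < 1 :=
      (tendsto_nhdsWithin_iff.mp e2).1.eventually (gt_mem_nhds one_pos)
    obtain ⟨k, h5, h6⟩ := (e3.and e4).exists
    refine ⟨k, ?_, h6.le⟩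
    have := mul_le_mul_of_nonneg_left h5.le hm0.le
    rwa [mul_one_div_cancel hm0.ne'] at this
  obtain ⟨τ, hτ⟩ : ∃ τ : ℝ, τ = (1 / 2) ^ k0 := ⟨_, rfl⟩
  have hτ0 : 0 < τ := by rw [hτ]; positivity
  have hτ1 : τ ≤ 1 := by rw [hτ]; exact pow_le_one₀ (by norm_num) (by norm_num)
  rw [← hτ] at hk0 hk0'
  have hωτ : 0 < ω τ := hωpos τ hτ0
  obtain ⟨Cb, hCb⟩ : ∃ Cb : ℝ, Cb = C₁ * (3 / 2) * K * (K / ω τ) := ⟨_, rfl⟩
  have hCb0 : 0 ≤ Cb := by rw [hCb]; positivity
  obtain ⟨Ch, hCh⟩ : ∃ Ch : ℝ, Ch = 22 * (14 * m * C₁ * K ^ 2 + 18 * C₁ * K) + Cb + 1 := ⟨_, rfl⟩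
  have hCh0 : 0 < Ch := by rw [hCh]; positivity
  have hCh1 : 22 * (14 * m * C₁ * K ^ 2 + 18 * C₁ * K) ≤ Ch := by rw [hCh]; linarith
  have hCh2 : Cb ≤ Ch := by
    rw [hCh]
    have : 0 ≤ 22 * (14 * m * C₁ * K ^ 2 + 18 * C₁ * K) := by positivity
    linarith
  refine ⟨τ, Ch, hτ0, hCh0, ?_⟩
  intro f P hf hfω hP hPb
  set Om : Set (E d) := {z | z ∈ B d ∧ 1 - nm z < τ} with hOm
  have hOmo : IsOpen Om := Om_open τ
  have hOmB : Om ⊆ B d := fun z hz => hz.1
  have hfR : ∀ z ∈ (B d), ∀ ξ, ‖fderiv ℝ f z ξ‖ ≤ ω (1 - N z) * len z ξ := by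
    intro z hz ξ
    rw [fderivR_eq (da_hol hf hz)]
    exact hfω z hz ξ
  have hω0 : ∀ z : E d, 0 ≤ ω (1 - N z) := fun z => (hω.2.1 _).1
  have hPd : ∀ k, ∀ z ∈ (B d), DifferentiableAt ℝ (P k) z := fun k z hz =>
    ((hP k).differentiableOn (by norm_num)).differentiableAt (B_open.mem_nhds hz)
  -- the derivatives of the dilated functions
  have hDf : ∀ z ∈ (B d), ∀ k ξ, ‖fderiv ℂ f (rad k • z) (rad k • ξ)‖ ≤
      3 / 2 * K * ω (1 - N z) * uu z (rad k) ^ 3 * len z ξ := by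
    intro z hz k ξ
    have hr0 := rad_nonneg k
    have hr1 := (rad_lt_one k).le
    have hmem := smul_mem_B hz hr0 hr1
    refine (hfω _ hmem _).trans ?_
    rw [len_smul hr0]
    have h5 := ray_bound h2 hz hr0 hr1 (A := ω (1 - N (rad k • z))) (A₀ := K * ω (1 - N z))
      (om_ray hω hK0 hz hr0 hr1) (mul_nonneg hK0 (hω0 z)) ξ
    have h6 : 0 ≤ ω (1 - N (rad k • z)) * len (rad k • z) ξ :=
      mul_nonneg (hω0 _) (len_nonneg _ _)
    calc ω (1 - N (rad k • z)) * (rad k * len (rad k • z) ξ) =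
          rad k * (ω (1 - N (rad k • z)) * len (rad k • z) ξ) := by ring
      _ ≤ 1 * (ω (1 - N (rad k • z)) * len (rad k • z) ξ) := mul_le_mul_of_nonneg_right hr1 h6
      _ ≤ 3 / 2 * (K * ω (1 - N z)) * uu z (rad k) ^ 3 * len z ξ := by rw [one_mul]; exact h5
      _ = _ := by ring
  -- the first steps
  have hbase : ∀ k ≤ k0, ∀ z ∈ Om, ∀ ξ,
      ‖P k z * starRingEnd ℂ (fderiv ℂ f (rad k • z) (rad k • ξ))‖ ≤
        Ch * (ω (1 - N z) ^ 2 * len z ξ) * uu z (rad k) := by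
    intro k hk z hz ξ
    have hr1 := (rad_lt_one k).le
    have hzB := hz.1
    have hL := len_nonneg z ξ
    have hu0 := uu_pos hzB hr1
    have hu1 := uu_le_one hzB hr1
    have hx := x_pos hzB
    have hn := nm_nonneg z
    have hn1 : nm z < 1 := mem_B_nm.1 hzB
    have hN : N z = nm z ^ 2 := (nm_sq z).symm
    have ht0 : 0 < 1 - N z := sub_pos.2 hzB
    have ht1 : 1 - nm z ≤ 1 - N z := by rw [hN]; nlinarith
    have huω : uu z (rad k) * ω τ ≤ K * ω (1 - N z) := by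
      rcases le_or_gt (1 - N z) τ with h4 | h4
      · have h5 := hω.2.2 τ (1 - N z) ht0 h4 hτ1
        have h6 : uu z (rad k) ≤ ((1 - N z) / τ) ^ (1 / 8 : ℝ) := by
          unfold uu
          refine Real.rpow_le_rpow (div_pos hx (r_pos hzB hr1)).le ?_ (by norm_num)
          have h7 : τ ≤ 1 - rad k * nm z := by
            have e1 : (1 / 2 : ℝ) ^ k0 ≤ (1 / 2) ^ k :=
              pow_le_pow_of_le_one (by norm_num) (by norm_num) hk
            have e2 : rad k = 1 - (1 / 2) ^ k := rfl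
            have e3 := tn_le (z := z) hr1
            have e4 : rad k * nm z ≤ rad k * 1 :=
              mul_le_mul_of_nonneg_left hn1.le (rad_nonneg k)
            rw [hτ]
            linarith
          exact div_le_div₀ ht0.le ht1 hτ0 h7
        have h8 : ((1 - N z) / τ) ^ (1 / 8 : ℝ) * (τ / (1 - N z)) ^ (1 / 8 : ℝ) = 1 := by
          rw [← Real.mul_rpow (div_pos ht0 hτ0).le (div_pos hτ0 ht0).le]
          have : (1 - N z) / τ * (τ / (1 - N z)) = 1 := by
            field_simp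
          rw [this, Real.one_rpow]
        have h9 : 0 ≤ ((1 - N z) / τ) ^ (1 / 8 : ℝ) :=
          Real.rpow_nonneg (div_pos ht0 hτ0).le _
        calc uu z (rad k) * ω τ ≤ ((1 - N z) / τ) ^ (1 / 8 : ℝ) *
              (K * (τ / (1 - N z)) ^ (1 / 8 : ℝ) * ω (1 - N z)) :=
              mul_le_mul h6 h5 hωτ.le h9
          _ = (((1 - N z) / τ) ^ (1 / 8 : ℝ) * (τ / (1 - N z)) ^ (1 / 8 : ℝ)) *
              (K * ω (1 - N z)) := by ring
          _ = K * ω (1 - N z) := by rw [h8, one_mul]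
      · have h5 : ω τ ≤ ω (1 - N z) := hω.1 h4.le
        have h6 := hω0 z
        calc uu z (rad k) * ω τ ≤ 1 * ω τ := mul_le_mul_of_nonneg_right hu1 hωτ.le
          _ = ω τ := one_mul _
          _ ≤ ω (1 - N z) := h5
          _ ≤ K * ω (1 - N z) := by nlinarith
    have huω' : uu z (rad k) ≤ K / ω τ * ω (1 - N z) := by
      rw [div_mul_eq_mul_div, le_div_iff₀ hωτ]
      exact huω
    rw [norm_mul, RCLike.norm_conj]
    have e1 := hDf z hzB k ξ
    have e2 := (hPb k z hzB).1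
    have ha := hω0 z
    have e3 : ‖P k z‖ * ‖fderiv ℂ f (rad k • z) (rad k • ξ)‖ ≤
        C₁ * (3 / 2 * K * ω (1 - N z) * uu z (rad k) ^ 3 * len z ξ) :=
      mul_le_mul e2 e1 (norm_nonneg _) hC₁.le
    refine e3.trans ?_
    have e4 : uu z (rad k) ^ 3 ≤ K / ω τ * ω (1 - N z) * uu z (rad k) := by
      calc uu z (rad k) ^ 3 = uu z (rad k) * uu z (rad k) * uu z (rad k) := by ring
        _ ≤ 1 * uu z (rad k) * uu z (rad k) :=
            mul_le_mul_of_nonneg_right (mul_le_mul_of_nonneg_right hu1 hu0.le) hu0.le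
        _ = uu z (rad k) * uu z (rad k) := by ring
        _ ≤ K / ω τ * ω (1 - N z) * uu z (rad k) := mul_le_mul_of_nonneg_right huω' hu0.le
    calc C₁ * (3 / 2 * K * ω (1 - N z) * uu z (rad k) ^ 3 * len z ξ) =
          (C₁ * (3 / 2 * K * ω (1 - N z) * len z ξ)) * uu z (rad k) ^ 3 := by ring
      _ ≤ (C₁ * (3 / 2 * K * ω (1 - N z) * len z ξ)) *
          (K / ω τ * ω (1 - N z) * uu z (rad k)) := mul_le_mul_of_nonneg_left e4 (by positivity)
      _ = Cb * (ω (1 - N z) ^ 2 * len z ξ * uu z (rad k)) := by rw [hCb]; ring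
      _ ≤ Ch * (ω (1 - N z) ^ 2 * len z ξ * uu z (rad k)) :=
          mul_le_mul_of_nonneg_right hCh2 (by positivity)
      _ = _ := by ring
  -- the recursion
  have key : ∀ j : ℕ, ContDiffOn ℝ 1 (vr (C₁ / m) m f P k0 j) Om ∧
      ∀ z ∈ Om, ‖vr (C₁ / m) m f P k0 j z‖ ≤ 256 * (C₁ / m) ∧
      ∀ ξ, ‖db (vr (C₁ / m) m f P k0 j) z ξ - P (k0 + j) z *
        starRingEnd ℂ (fderiv ℂ f (rad (k0 + j) • z) (rad (k0 + j) • ξ))‖ ≤
        Ch * (ω (1 - N z) ^ 2 * len z ξ) * uu z (rad (k0 + j)) := by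
    intro j
    induction j with
    | zero =>
      refine ⟨contDiffOn_const, fun z hz => ⟨?_, fun ξ => ?_⟩⟩
      · simp only [vr, norm_zero]; positivity
      · have h6 : db (vr (C₁ / m) m f P k0 0) z ξ = 0 := by
          simp only [vr, db]
          simp
        rw [h6, zero_sub, norm_neg]
        exact hbase k0 le_rfl z hz ξ
    | succ j ih =>
      obtain ⟨ih1, ih2⟩ := ih
      set k := k0 + j with hk
      have hkk : k0 + (j + 1) = k + 1 := by omega
      rw [hkk]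
      set r := rad k with hr
      set r' := rad (k + 1) with hr'
      have hr0 : 0 ≤ r := rad_nonneg k
      have hr1 : r ≤ 1 := (rad_lt_one k).le
      have hr0' : 0 ≤ r' := rad_nonneg (k + 1)
      have hr1' : r' ≤ 1 := (rad_lt_one (k + 1)).le
      have hrr : r' - r = (1 / 2) ^ (k + 1) := rad_succ k
      have hrr' : r ≤ r' := by
        have : (0 : ℝ) < (1 / 2) ^ (k + 1) := by positivity
        linarith
      -- step length
      have hs0 : ∀ z ∈ B d, 0 ≤ st k z := by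
        intro z hz
        unfold st
        exact div_nonneg (mul_nonneg (by rw [← hr, ← hr']; linarith) (nm_nonneg z))
          (r_pos hz hr1').le
      have hs1 : ∀ z ∈ B d, st k z ≤ 1 := by
        intro z hz
        have hx := x_pos hz
        unfold st
        rw [← hr, ← hr', div_le_one (r_pos hz hr1')]
        have h5 : r' = 1 - (1 / 2) ^ (k + 1) := rfl
        rw [hrr, h5]
        nlinarith
      -- differences
      have hdd : ∀ z ∈ B d, ∀ A : ℝ, (∀ t, r ≤ t → t ≤ r' → ω (1 - N (t • z)) ≤ A) →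
          ‖f (r' • z) - f (r • z)‖ ≤ A * st k z := by
        intro z hz A hA
        exact h3 f z r r' A ((cd_hol hf).differentiableOn (by norm_num)) hz hr0 hrr' hr1'
          (fun t ht0 ht1 η => by
            have hmem := smul_mem_B hz (hr0.trans ht0) (ht1.trans hr1')
            refine (hfR _ hmem η).trans ?_
            exact mul_le_mul_of_nonneg_right (hA t ht0 ht1) (len_nonneg _ _))
      have hnm : ∀ z, ‖(m : ℂ) * f (r' • z) - (m : ℂ) * f (r • z)‖ =
          m * ‖f (r' • z) - f (r • z)‖ := by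
        intro z
        rw [← mul_sub, norm_mul, Complex.norm_real, Real.norm_of_nonneg hm0.le]
      have hd1 : ∀ z ∈ Om, ‖(m : ℂ) * f (r' • z) - (m : ℂ) * f (r • z)‖ ≤ st k z := by
        intro z hz
        have hzB := hz.1
        have hn := nm_nonneg z
        have hn1 : nm z < 1 := mem_B_nm.1 hzB
        have hN : N z = nm z ^ 2 := (nm_sq z).symm
        have e1 := hdd z hzB (ω (4 * τ)) (fun t ht0 ht1 => by
          refine hω.1 ?_
          have ht1' : t ≤ 1 := ht1.trans hr1'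
          have ht0' : 0 ≤ t := hr0.trans ht0
          have e2 : N (t • z) = (t * nm z) ^ 2 := by rw [N_smul, hN]; ring
          have e3 : r * nm z ≤ t * nm z := mul_le_mul_of_nonneg_right ht0 hn
          have e4 : 0 ≤ r * nm z := mul_nonneg hr0 hn
          have e5 : t * nm z ≤ nm z := tn_le ht1'
          have e6 : (1 / 2 : ℝ) ^ k ≤ (1 / 2) ^ k0 :=
            pow_le_pow_of_le_one (by norm_num) (by norm_num) (by omega)
          have e7 : r = 1 - (1 / 2) ^ k := rfl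
          have e8 : 1 - nm z < τ := hz.2
          have e9 : 1 - r * nm z ≤ (1 - r) + (1 - nm z) := by
            nlinarith
          rw [← hτ] at e6
          rw [e2]
          nlinarith)
        rw [hnm]
        have e2 := mul_le_mul_of_nonneg_left e1 hm0.le
        have e3 := hs0 z hzB
        calc m * ‖f (r' • z) - f (r • z)‖ ≤ m * (ω (4 * τ) * st k z) := e2
          _ = (m * ω (4 * τ)) * st k z := by ring
          _ ≤ 1 * st k z := mul_le_mul_of_nonneg_right hk0 e3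
          _ = st k z := one_mul _
      have hd2 : ∀ z ∈ B d, ‖(m : ℂ) * f (r' • z) - (m : ℂ) * f (r • z)‖ ≤
          m * (K * ω (1 - N z) * (st k z / uu z r)) := by
        intro z hz
        rw [hnm]
        refine mul_le_mul_of_nonneg_left ?_ hm0.le
        have hu0 := uu_pos hz hr1
        have e1 := hdd z hz (K * ω (1 - N z) * (uu z r)⁻¹) (fun t ht0 ht1 => by
          refine (om_ray hω hK0 hz (hr0.trans ht0) (ht1.trans hr1')).trans ?_
          exact mul_le_mul_of_nonneg_left (inv_anti₀ hu0 (uu_mono hz ht0 (ht1.trans hr1')))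
            (mul_nonneg hK0 (hω0 z)))
        refine e1.trans (le_of_eq ?_)
        ring
      have hPc : ∀ k z, z ∈ B d → ‖(m : ℂ)⁻¹ * P k z‖ ≤ C₁ / m := by
        intro k z hz
        rw [norm_mul, norm_inv, Complex.norm_real, Real.norm_of_nonneg hm0.le, div_eq_inv_mul]
        exact mul_le_mul_of_nonneg_left (hPb k z hz).1 (by positivity)
      have hstep := fun (z : E d) (hz : z ∈ Om) (p : ℝ) (ξ : E d)
        (hp1 : ‖fderiv ℝ (fun w => (m : ℂ)⁻¹ * P (k + 1) w) z ξ‖ ≤ p)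
        (hp2 : ‖fderiv ℝ (fun w => (m : ℂ)⁻¹ * P (k + 1) w) z (I • ξ)‖ ≤ p) =>
        h1 (C₁ / m) p (vr (C₁ / m) m f P k0 j) (fun w => (m : ℂ)⁻¹ * P k w)
          (fun w => (m : ℂ)⁻¹ * P (k + 1) w) (fun w => (m : ℂ) * f (r • w))
          (fun w => (m : ℂ) * f (r' • w)) z ξ hCm0
          ((ih1.differentiableOn (by norm_num)).differentiableAt (hOmo.mem_nhds hz))
          ((hPd (k + 1) z hz.1).const_mul _)
          ((dil_hasFDerivAt (da_hol hf (smul_mem_B hz.1 hr0 hr1))).differentiableAt.const_mul _)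
          ((dil_hasFDerivAt (da_hol hf (smul_mem_B hz.1 hr0' hr1'))).differentiableAt.const_mul _)
          (ih2 z hz).1 (hPc k z hz.1) (hPc (k + 1) z hz.1)
          (by
            have := hd1 z hz
            have := hs1 z hz.1
            linarith) hp1 hp2
          (fun w => ((m : ℂ)⁻¹ * P (k + 1) w) *
            starRingEnd ℂ ((m : ℂ) * f (r' • w) - (m : ℂ) * f (r • w)))
          (vr (C₁ / m) m f P k0 (j + 1)) (fun w => rfl) (fun w => rfl)
      refine ⟨?_, fun z hz => ⟨?_, fun ξ => ?_⟩⟩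
      · -- regularity
        have hc0 : ContDiffOn ℝ 1 (fun w => (m : ℂ)⁻¹ * P (k + 1) w) Om :=
          contDiffOn_const.mul ((hP (k + 1)).mono hOmB)
        have hc : ContDiffOn ℝ 1 (fun w => ((m : ℂ)⁻¹ * P (k + 1) w) *
            starRingEnd ℂ ((m : ℂ) * f (r' • w) - (m : ℂ) * f (r • w))) Om := by
          refine hc0.mul ?_
          exact (Complex.conjCLE.contDiff.comp_contDiffOn
            ((contDiffOn_const.mul ((cd_dil (cd_hol hf) hr0' hr1').mono hOmB)).sub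
              (contDiffOn_const.mul ((cd_dil (cd_hol hf) hr0 hr1).mono hOmB))))
        have hc2 : ContDiffOn ℝ 1 (fun w => starRingEnd ℂ (((m : ℂ)⁻¹ * P (k + 1) w) *
            starRingEnd ℂ ((m : ℂ) * f (r' • w) - (m : ℂ) * f (r • w)))) Om :=
          Complex.conjCLE.contDiff.comp_contDiffOn hc
        have hden : ContDiffOn ℝ 1 (fun w => 1 + starRingEnd ℂ (((m : ℂ)⁻¹ * P (k + 1) w) *
            starRingEnd ℂ ((m : ℂ) * f (r' • w) - (m : ℂ) * f (r • w))) *
              vr (C₁ / m) m f P k0 j w / (256 * (C₁ / m : ℝ)) ^ 2) Om :=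
          ContDiffOn.add contDiffOn_const ((hc2.mul ih1).div_const _)
        have hinv := hden.inv (fun z hz =>
          (hstep z hz _ 0 (le_max_left _ _) (le_max_right _ _)).2.1)
        refine ((ih1.add hc).mul hinv).congr fun w _ => ?_
        simp only [vr, div_eq_mul_inv]
        rfl
      · exact (hstep z hz _ 0 (le_max_left _ _) (le_max_right _ _)).1
      · -- the estimate
        have hzB := hz.1
        have hL := len_nonneg z ξ
        have ha0 := hω0 z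
        have hrp := r_pos hzB hr1
        have hrp' := r_pos hzB hr1'
        have hu0 : 0 < uu z r := uu_pos hzB hr1
        have hu0' : 0 < uu z r' := uu_pos hzB hr1'
        have hus : uu z r' ^ 8 = uu z r ^ 8 * (1 + st k z) := by
          rw [uu_pow hzB hr1, uu_pow hzB hr1']
          unfold st
          rw [← hr, ← hr']
          have e1 := hrp.ne'
          have e2 := hrp'.ne'
          have e3 : 1 + (r' - r) * nm z / (1 - r' * nm z) = (1 - r * nm z) / (1 - r' * nm z) := by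
            rw [eq_div_iff e2, add_mul, div_mul_cancel₀ _ e2]; ring
          rw [e3, div_mul_div_cancel₀ e1]
        have hD0 : ‖fderiv ℂ (fun w => (m : ℂ) * f (r • w)) z ξ‖ ≤
            m * (3 / 2 * K * ω (1 - N z) * uu z r ^ 3 * len z ξ) := by
          rw [m_fderiv (da_hol hf (smul_mem_B hzB hr0 hr1)), norm_mul, Complex.norm_real,
            Real.norm_of_nonneg hm0.le]
          exact mul_le_mul_of_nonneg_left (hDf z hzB k ξ) hm0.le
        have hD1 : ‖fderiv ℂ (fun w => (m : ℂ) * f (r' • w)) z ξ‖ ≤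
            m * (3 / 2 * K * ω (1 - N z) * uu z r' ^ 3 * len z ξ) := by
          rw [m_fderiv (da_hol hf (smul_mem_B hzB hr0' hr1')), norm_mul, Complex.norm_real,
            Real.norm_of_nonneg hm0.le]
          exact mul_le_mul_of_nonneg_left (hDf z hzB (k + 1) ξ) hm0.le
        have hPf : ∀ η : E d, len z η = len z ξ →
            ‖fderiv ℝ (fun w => (m : ℂ)⁻¹ * P (k + 1) w) z η‖ ≤
            C₁ / m * (ω (1 - N z) * uu z r' ^ 2 * len z ξ) := by
          intro η hη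
          rw [fderiv_const_mul (hPd (k + 1) z hzB)]
          rw [ContinuousLinearMap.smul_apply, norm_smul, norm_inv, Complex.norm_real,
            Real.norm_of_nonneg hm0.le]
          have e1 := (hPb (k + 1) z hzB).2.2 η
          rw [hη] at e1
          have e2 := mul_le_mul_of_nonneg_left e1 (inv_nonneg.mpr hm0.le)
          refine e2.trans (le_of_eq ?_)
          rw [← hr']
          ring
        have hdP : ‖(m : ℂ)⁻¹ * P k z - (m : ℂ)⁻¹ * P (k + 1) z‖ ≤
            C₁ / m * (ω (1 - N z) * (st k z / uu z r)) := by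
          rw [norm_sub_rev, ← mul_sub, norm_mul, norm_inv, Complex.norm_real,
            Real.norm_of_nonneg hm0.le]
          have e1 := (hPb k z hzB).2.1
          have e2 := mul_le_mul_of_nonneg_left e1 (inv_nonneg.mpr hm0.le)
          refine e2.trans (le_of_eq ?_)
          rw [← hr]
          ring
        have hmul : ∀ (p X : ℂ), (m : ℂ)⁻¹ * p * starRingEnd ℂ ((m : ℂ) * X) =
            p * starRingEnd ℂ X := by
          intro p X
          rw [map_mul, Complex.conj_ofReal]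
          field_simp
        have hmain := (hstep z hz _ ξ (hPf ξ rfl) (hPf (I • ξ) (len_I z ξ))).2.2.1
        rw [m_fderiv (da_hol hf (smul_mem_B hzB hr0 hr1)),
          m_fderiv (da_hol hf (smul_mem_B hzB hr0' hr1')), hmul, hmul,
          ← m_fderiv (da_hol hf (smul_mem_B hzB hr0 hr1)),
          ← m_fderiv (da_hol hf (smul_mem_B hzB hr0' hr1'))] at hmain
        exact num_r hC₁ hK0 hm0 ha0 hL hu0 hu0' (uu_le_one hzB hr1) (hs0 z hzB) (hs1 z hzB) hus
          (norm_nonneg _) (hd1 z hz) (hd2 z hzB) (norm_nonneg _) (norm_nonneg _) hD0 hD1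
          (by positivity) le_rfl hdP (norm_nonneg _) ((ih2 z hz).2 ξ) hCh1 hmain
  -- conclusion
  have hlast : ∀ (k : ℕ) (z : E d), z ∈ Om → ∀ ξ : E d,
      Ch * (ω (1 - N z) ^ 2 * len z ξ) * uu z (rad k) ≤ Ch * ω (1 - N z) ^ 2 * len z ξ := by
    intro k z hz ξ
    have h6 := uu_le_one hz.1 (rad_lt_one k).le
    have h9 : 0 ≤ Ch * (ω (1 - N z) ^ 2 * len z ξ) :=
      mul_nonneg hCh0.le (mul_nonneg (sq_nonneg _) (len_nonneg _ _))
    calc _ ≤ Ch * (ω (1 - N z) ^ 2 * len z ξ) * 1 := mul_le_mul_of_nonneg_left h6 h9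
      _ = _ := by ring
  intro k
  rcases le_total k k0 with hk | hk
  · refine ⟨fun _ => 0, contDiffOn_const, fun z hz hz' => ⟨?_, fun ξ => ?_⟩⟩
    · rw [norm_zero]; exact hη.le
    · have h6 : db (fun _ : E d => (0 : ℂ)) z ξ = 0 := by
        simp only [db]
        simp
      rw [h6, zero_sub, norm_neg]
      exact (hbase k hk z ⟨hz, hz'⟩ ξ).trans (hlast k z ⟨hz, hz'⟩ ξ)
  · obtain ⟨j, rfl⟩ := Nat.exists_eq_add_of_le hk
    obtain ⟨hk1, hk2⟩ := key j
    refine ⟨vr (C₁ / m) m f P k0 j, hk1, fun z hz hz' => ⟨?_, fun ξ => ?_⟩⟩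
    · have := (hk2 z ⟨hz, hz'⟩).1
      rwa [h256] at this
    · exact ((hk2 z ⟨hz, hz'⟩).2 ξ).trans (hlast _ z ⟨hz, hz'⟩ ξ)

end Pool.Agent.N692.RK
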